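import Mathlib
import Pool.Agent.Helper20.HypAssemble

set_option autoImplicit false

namespace Pool.Agent.Results.MP_314520_nt.BeyondQuarter

open Pool.Agent.Helper20 Finset

/-- the points of the modular hyperbola in the box -/
noncomputable def box (p : ℕ) (lam K L : ℤ) (M : ℕ) : Finset (ℤ × ℤ) :=
  ((Finset.Icc (K + 1) (K + (M : ℤ))) ×ˢ (Finset.Icc (L + 1) (L + (M : ℤ)))).filter
    (fun q : ℤ × ℤ => (p : ℤ) ∣ q.1 * q.2 - lam)

/-- the basic case: one small box -/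
theorem small_box (ε : ℝ) (hε : 0 < ε) : ∃ C : ℝ, 0 < C ∧ ∀ p : ℕ, p.Prime → ∀ M : ℕ, 1 ≤ M →
    16257024000 * M ^ 31 < p ^ 8 → ∀ K L lam : ℤ, ¬ ((p : ℤ) ∣ lam) →
      ((box p lam K L M).card : ℝ) ≤ C * (M : ℝ) ^ ε := by
  have hε' : 0 < ε / 90 := by positivity
  obtain ⟨C1, hC1, hdiv⟩ := divisor_bound (ε / 90) hε'
  have hC0 : (0 : ℝ) < C1 := by linarith
  refine ⟨4 * C1 * (12 * 6 ^ 30 : ℝ) ^ (ε / 90) + 8, by positivity, ?_⟩
  intro p hp M hM hsz K L lam hlam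
  set S := (box p lam K L M).image (fun q : ℤ × ℤ => (q.1 - K, q.2 - L)) with hS
  have hcard : S.card = (box p lam K L M).card := by
    apply Finset.card_image_of_injective
    intro a b hab
    simp only [Prod.mk.injEq] at hab
    exact Prod.ext (by linarith [hab.1]) (by linarith [hab.2])
  have hMp : M < p := by
    by_contra hcon
    push Not at hcon
    have h1 : p ^ 8 ≤ M ^ 8 := Nat.pow_le_pow_left hcon 8
    have h2 : M ^ 8 ≤ M ^ 31 := Nat.pow_le_pow_right hM (by norm_num)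
    have h3 : 0 < M ^ 31 := by positivity
    omega
  have hconf : Conf p L K (K * L - lam) M S := by
    refine ⟨hp, ?_, ?_, ?_, hMp⟩
    · have : L * K - (K * L - lam) = lam := by ring
      rw [this]; exact hlam
    · intro P hP
      obtain ⟨q, hq, rfl⟩ := Finset.mem_image.mp hP
      rw [box, Finset.mem_filter, Finset.mem_product, Finset.mem_Icc, Finset.mem_Icc] at hq
      refine ⟨?_, ?_, ?_, ?_⟩ <;> simp only <;> linarith [hq.1.1.1, hq.1.1.2, hq.1.2.1, hq.1.2.2]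
    · intro P hP
      obtain ⟨q, hq, rfl⟩ := Finset.mem_image.mp hP
      rw [box, Finset.mem_filter] at hq
      have : (q.1 - K) * (q.2 - L) + L * (q.1 - K) + K * (q.2 - L) + (K * L - lam)
          = q.1 * q.2 - lam := by ring
      simp only [this]
      exact hq.2
  obtain ⟨D, hD0, hDb, hDc⟩ := hconf.card_bound hM hsz
  rw [← hcard]
  have h1 : ((dv D : ℕ) : ℝ) ≤ C1 * ((D.natAbs : ℕ) : ℝ) ^ (ε / 90) :=
    hdiv _ (Int.natAbs_ne_zero.mpr hD0)
  have hM1 : (1 : ℝ) ≤ M := by exact_mod_cast hM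
  have h2 : ((D.natAbs : ℕ) : ℝ) ≤ (12 * 6 ^ 30 : ℝ) * (M : ℝ) ^ 90 := by
    have : ((D.natAbs : ℕ) : ℤ) ≤ 12 * 6 ^ 30 * (M : ℤ) ^ 90 := by
      rw [← Int.abs_eq_natAbs]; exact hDb
    exact_mod_cast this
  have h3 : ((D.natAbs : ℕ) : ℝ) ^ (ε / 90) ≤ (12 * 6 ^ 30 : ℝ) ^ (ε / 90) * (M : ℝ) ^ ε := by
    calc ((D.natAbs : ℕ) : ℝ) ^ (ε / 90) ≤ ((12 * 6 ^ 30 : ℝ) * (M : ℝ) ^ 90) ^ (ε / 90) := by
          apply Real.rpow_le_rpow (by positivity) h2 hε'.le
      _ = (12 * 6 ^ 30 : ℝ) ^ (ε / 90) * ((M : ℝ) ^ 90) ^ (ε / 90) := by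
          rw [Real.mul_rpow (by positivity) (by positivity)]
      _ = _ := by
          congr 1
          rw [← Real.rpow_natCast, ← Real.rpow_mul (by positivity)]
          congr 1
          push_cast
          ring
  have h4 : (1 : ℝ) ≤ (M : ℝ) ^ ε := Real.one_le_rpow hM1 hε.le
  calc ((S.card : ℕ) : ℝ) ≤ ((4 * dv D + 8 : ℕ) : ℝ) := by exact_mod_cast hDc
    _ = 4 * ((dv D : ℕ) : ℝ) + 8 := by push_cast; ring
    _ ≤ 4 * (C1 * ((12 * 6 ^ 30 : ℝ) ^ (ε / 90) * (M : ℝ) ^ ε)) + 8 * (M : ℝ) ^ ε := by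
        have : C1 * ((D.natAbs : ℕ) : ℝ) ^ (ε / 90)
            ≤ C1 * ((12 * 6 ^ 30 : ℝ) ^ (ε / 90) * (M : ℝ) ^ ε) := by gcongr
        linarith
    _ = _ := by ring

/-- covering a large box by small ones -/
theorem cover (p : ℕ) (lam K L : ℤ) (M m k : ℕ) (hm : 1 ≤ m) (hk : M ≤ k * m) :
    box p lam K L M ⊆ ((Finset.range k) ×ˢ (Finset.range k)).biUnion
      (fun ij => box p lam (K + ij.1 * m) (L + ij.2 * m) m) := by
  intro q hq
  rw [box, Finset.mem_filter, Finset.mem_product, Finset.mem_Icc, Finset.mem_Icc] at hq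
  obtain ⟨⟨⟨x1, x2⟩, y1, y2⟩, hd⟩ := hq
  have hm0 : (0 : ℤ) < m := by exact_mod_cast hm
  have hkm : (M : ℤ) ≤ k * m := by exact_mod_cast hk
  have aux : ∀ u : ℤ, 0 ≤ u → u < M → ∃ i : ℕ, i ∈ Finset.range k ∧
      (i : ℤ) * m ≤ u ∧ u < (i : ℤ) * m + m := by
    intro u hu0 huM
    refine ⟨(u / m).toNat, ?_, ?_, ?_⟩
    · rw [Finset.mem_range]
      have h1 : u / m < k := Int.ediv_lt_of_lt_mul hm0 (by linarith)
      have h2 : 0 ≤ u / m := Int.ediv_nonneg hu0 hm0.le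
      omega
    · have h2 : 0 ≤ u / m := Int.ediv_nonneg hu0 hm0.le
      rw [Int.toNat_of_nonneg h2]
      have := Int.mul_ediv_add_emod u m
      have h3 := Int.emod_nonneg u hm0.ne'
      linarith
    · have h2 : 0 ≤ u / m := Int.ediv_nonneg hu0 hm0.le
      rw [Int.toNat_of_nonneg h2]
      have := Int.mul_ediv_add_emod u m
      have h3 := Int.emod_lt_of_pos u hm0
      linarith
  obtain ⟨i, hi, hi1, hi2⟩ := aux (q.1 - K - 1) (by linarith) (by linarith)
  obtain ⟨j, hj, hj1, hj2⟩ := aux (q.2 - L - 1) (by linarith) (by linarith)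
  rw [Finset.mem_biUnion]
  refine ⟨(i, j), Finset.mem_product.mpr ⟨hi, hj⟩, ?_⟩
  rw [box, Finset.mem_filter, Finset.mem_product, Finset.mem_Icc, Finset.mem_Icc]
  refine ⟨⟨⟨?_, ?_⟩, ?_, ?_⟩, hd⟩ <;> simp only <;> linarith

/-- **Points of a modular hyperbola in a small box, beyond the fourth-root barrier.** -/
theorem result : ∀ ε : ℝ, 0 < ε → ∃ C : ℝ, 0 < C ∧
    ∀ p : ℕ, p.Prime → ∀ M : ℕ, 1 ≤ M →
      ∀ K L lam : ℤ, ¬ ((p : ℤ) ∣ lam) →
        ((((Finset.Icc (K + 1) (K + (M : ℤ))) ×ˢ (Finset.Icc (L + 1) (L + (M : ℤ)))).filter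
            (fun q : ℤ × ℤ => (p : ℤ) ∣ q.1 * q.2 - lam)).card : ℝ)
          ≤ C * (M : ℝ) ^ ε * (1 + (M : ℝ) ^ 2 / (p : ℝ) ^ ((16 : ℝ) / 31)) := by
  intro ε hε
  obtain ⟨C1, hC1, hsmall⟩ := small_box ε hε
  refine ⟨144 * C1 + 9, by positivity, ?_⟩
  intro p hp M hM K L lam hlam
  change ((box p lam K L M).card : ℝ) ≤ _
  have hM1 : (1 : ℝ) ≤ M := by exact_mod_cast hM
  have hMe : (1 : ℝ) ≤ (M : ℝ) ^ ε := Real.one_le_rpow hM1 hε.le
  have hp0 : (0 : ℝ) < p := by exact_mod_cast hp.pos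
  set R : ℝ := (p : ℝ) ^ ((8 : ℝ) / 31) with hR
  have hR0 : 0 < R := Real.rpow_pos_of_pos hp0 _
  have hR2 : (p : ℝ) ^ ((16 : ℝ) / 31) = R ^ 2 := by
    rw [hR, ← Real.rpow_natCast, ← Real.rpow_mul hp0.le]
    norm_num
  have hR31 : R ^ 31 = (p : ℝ) ^ 8 := by
    rw [hR, ← Real.rpow_natCast, ← Real.rpow_mul hp0.le]
    norm_num
  rw [hR2]
  by_cases hR3 : R < 3
  · -- tiny primes
    have h1 : ((box p lam K L M).card : ℝ) ≤ (M : ℝ) ^ 2 := by
      have : (box p lam K L M).card ≤ M ^ 2 := by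
        calc (box p lam K L M).card
            ≤ ((Finset.Icc (K + 1) (K + (M : ℤ))) ×ˢ (Finset.Icc (L + 1) (L + (M : ℤ)))).card :=
              Finset.card_filter_le _ _
          _ = M ^ 2 := by
              rw [Finset.card_product, Int.card_Icc, Int.card_Icc]
              have e1 : (K + (M : ℤ) + 1 - (K + 1)).toNat = M := by
                have : K + (M : ℤ) + 1 - (K + 1) = M := by ring
                rw [this, Int.toNat_natCast]
              have e2 : (L + (M : ℤ) + 1 - (L + 1)).toNat = M := by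
                have : L + (M : ℤ) + 1 - (L + 1) = M := by ring
                rw [this, Int.toNat_natCast]
              rw [e1, e2]; ring
      exact_mod_cast this
    have h2 : (M : ℝ) ^ 2 ≤ 9 * ((M : ℝ) ^ 2 / R ^ 2) := by
      rw [← mul_div_assoc, le_div_iff₀ (by positivity)]
      have : R ^ 2 ≤ 9 := by nlinarith
      nlinarith [sq_nonneg (M : ℝ)]
    have h3 : 0 ≤ (M : ℝ) ^ 2 / R ^ 2 := by positivity
    calc ((box p lam K L M).card : ℝ) ≤ 9 * ((M : ℝ) ^ 2 / R ^ 2) := h1.trans h2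
      _ ≤ 9 * 1 * (1 + (M : ℝ) ^ 2 / R ^ 2) := by linarith
      _ ≤ (144 * C1 + 9) * (M : ℝ) ^ ε * (1 + (M : ℝ) ^ 2 / R ^ 2) := by
          gcongr
          linarith
  · push Not at hR3
    obtain ⟨m, hm⟩ : ∃ m : ℕ, m = ⌊R / 3⌋₊ := ⟨_, rfl⟩
    have hm1 : 1 ≤ m := by
      rw [hm]; apply Nat.le_floor; push_cast; linarith
    have hmR : (m : ℝ) ≤ R / 3 := by rw [hm]; exact Nat.floor_le (by positivity)
    have hmR' : R / 6 ≤ (m : ℝ) := by
      have h1 : R / 3 < (m : ℝ) + 1 := by rw [hm]; exact Nat.lt_floor_add_one _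
      have h2 : (1 : ℝ) ≤ m := by exact_mod_cast hm1
      linarith
    have hmsz : 16257024000 * m ^ 31 < p ^ 8 := by
      have h1 : (m : ℝ) ^ 31 ≤ (R / 3) ^ 31 := by gcongr
      have h2 : (R / 3) ^ 31 = (p : ℝ) ^ 8 / 3 ^ 31 := by rw [div_pow, hR31]
      have h3 : (16257024000 : ℝ) * (m : ℝ) ^ 31 < (p : ℝ) ^ 8 := by
        have h4 : (0 : ℝ) < (p : ℝ) ^ 8 := by positivity
        calc (16257024000 : ℝ) * (m : ℝ) ^ 31 ≤ 16257024000 * ((p : ℝ) ^ 8 / 3 ^ 31) := by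
              rw [← h2]; gcongr
          _ = (16257024000 / 3 ^ 31) * (p : ℝ) ^ 8 := by ring
          _ < 1 * (p : ℝ) ^ 8 := by
              apply mul_lt_mul_of_pos_right _ h4
              norm_num
          _ = _ := one_mul _
      exact_mod_cast h3
    by_cases hMm : M ≤ m
    · have hMsz : 16257024000 * M ^ 31 < p ^ 8 :=
        lt_of_le_of_lt (Nat.mul_le_mul_left _ (Nat.pow_le_pow_left hMm 31)) hmsz
      have h1 := hsmall p hp M hM hMsz K L lam hlam
      have h3 : 0 ≤ (M : ℝ) ^ 2 / R ^ 2 := by positivity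
      calc ((box p lam K L M).card : ℝ) ≤ C1 * (M : ℝ) ^ ε * 1 := by linarith
        _ ≤ (144 * C1 + 9) * (M : ℝ) ^ ε * (1 + (M : ℝ) ^ 2 / R ^ 2) := by
            gcongr
            · linarith
            · linarith
    · push Not at hMm
      obtain ⟨k, hk⟩ : ∃ k : ℕ, k = M / m + 1 := ⟨_, rfl⟩
      have hkM : M ≤ k * m := by
        rw [hk]
        have := Nat.lt_div_mul_add (a := M) (b := m) (by omega)
        nlinarith
      have hk2 : (k : ℝ) ≤ 12 * (M : ℝ) / R := by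
        have hm0 : (0 : ℝ) < m := by exact_mod_cast hm1
        have h1 : ((M / m : ℕ) : ℝ) ≤ (M : ℝ) / m := Nat.cast_div_le
        have h2 : (1 : ℝ) ≤ (M : ℝ) / m := by
          rw [le_div_iff₀ hm0, one_mul]
          exact_mod_cast hMm.le
        have h3 : (k : ℝ) ≤ 2 * ((M : ℝ) / m) := by
          rw [hk]; push_cast; linarith
        calc (k : ℝ) ≤ 2 * ((M : ℝ) / m) := h3
          _ ≤ 2 * ((M : ℝ) / (R / 6)) := by gcongr
          _ = 12 * (M : ℝ) / R := by field_simp; norm_num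
      have h1 : (box p lam K L M).card ≤ ∑ ij ∈ (Finset.range k) ×ˢ (Finset.range k),
          (box p lam (K + ij.1 * m) (L + ij.2 * m) m).card :=
        (Finset.card_le_card (cover p lam K L M m k hm1 hkM)).trans Finset.card_biUnion_le
      have h2 : ((box p lam K L M).card : ℝ) ≤ ∑ ij ∈ (Finset.range k) ×ˢ (Finset.range k),
          (C1 * (M : ℝ) ^ ε) := by
        calc ((box p lam K L M).card : ℝ)
            ≤ ((∑ ij ∈ (Finset.range k) ×ˢ (Finset.range k),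
              (box p lam (K + ij.1 * m) (L + ij.2 * m) m).card : ℕ) : ℝ) := by exact_mod_cast h1
          _ = ∑ ij ∈ (Finset.range k) ×ˢ (Finset.range k),
              ((box p lam (K + ij.1 * m) (L + ij.2 * m) m).card : ℝ) := by push_cast; rfl
          _ ≤ _ := by
              apply Finset.sum_le_sum
              intro ij _
              refine (hsmall p hp m hm1 hmsz _ _ lam hlam).trans ?_
              gcongr
      rw [Finset.sum_const, Finset.card_product, Finset.card_range, nsmul_eq_mul] at h2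
      push_cast at h2
      have h3 : (k : ℝ) * k ≤ 144 * ((M : ℝ) ^ 2 / R ^ 2) := by
        calc (k : ℝ) * k ≤ (12 * (M : ℝ) / R) * (12 * (M : ℝ) / R) := by gcongr
          _ = 144 * ((M : ℝ) ^ 2 / R ^ 2) := by ring
      calc ((box p lam K L M).card : ℝ) ≤ (k : ℝ) * k * (C1 * (M : ℝ) ^ ε) := h2
        _ ≤ 144 * ((M : ℝ) ^ 2 / R ^ 2) * (C1 * (M : ℝ) ^ ε) := by gcongr
        _ = (144 * C1) * (M : ℝ) ^ ε * ((M : ℝ) ^ 2 / R ^ 2) := by ring
        _ ≤ (144 * C1 + 9) * (M : ℝ) ^ ε * (1 + (M : ℝ) ^ 2 / R ^ 2) := by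
            gcongr
            · linarith
            · linarith

end Pool.Agent.Results.MP_314520_nt.BeyondQuarter
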